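import Pool.Agent.Helper19.Qh.Stmts

set_option autoImplicit false

/-!
# Module LF : countability of the lattice group and local finiteness (port of Helper41/Un/LF)
-/

namespace Pool.Agent.Helper19.Qh

open MeasureTheory Topology Set

variable {m : ℕ}

/-! ### the images of finitely many vectors determine the transformation -/

theorem lf_span {M : AddSubgroup (V m)} (hM : IsLat M) :
    ∃ S : Finset (V m), (S : Set (V m)) ⊆ M ∧ Submodule.span Q (S : Set (V m)) = ⊤ := by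
  have h1 : (Submodule.span Q (M : Set (V m))).FG := by
    rw [hM.span]
    exact Module.finite_def.mp inferInstance
  obtain ⟨S, hS, hspan⟩ := (Submodule.fg_span_iff_fg_span_finset_subset (M : Set (V m))).mp h1
  exact ⟨S, hS, by rw [← hspan, hM.span]⟩

/-- the images of the vectors of `S` -/
noncomputable def lf_img (S : Finset (V m)) (g : V m ≃ₗ[Q] V m) : S → V m := fun s => g s

theorem lf_img_inj {S : Finset (V m)} (hS : Submodule.span Q (S : Set (V m)) = ⊤) :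
    Function.Injective (lf_img S) := by
  intro g h hgh
  apply LinearEquiv.toLinearMap_injective
  apply LinearMap.ext_on hS
  intro x hx
  exact congrFun hgh ⟨x, hx⟩

theorem lf_countable_M {M : AddSubgroup (V m)} (hM : IsLat M) : (M : Set (V m)).Countable := by
  have h1 : (M : Set (V m)) = ⋃ N : ℕ, {x : V m | x ∈ M ∧ ‖x‖ ≤ N} := by
    ext x
    simp only [mem_iUnion]
    constructor
    · intro hx
      obtain ⟨N, hN⟩ := exists_nat_ge ‖x‖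
      exact ⟨N, hx, hN⟩
    · rintro ⟨N, hx, -⟩
      exact hx
  rw [h1]
  exact countable_iUnion fun N => (hM.fin N).countable

theorem st_CNT : ST_CNT := by
  intro m M hM
  obtain ⟨S, hSM, hS⟩ := lf_span hM
  have h1 := lf_countable_M hM
  have h2 : ({f : S → V m | ∀ s, f s ∈ (M : Set (V m))}).Countable :=
    Set.countable_pi fun _ => h1
  have h3 : ((Gam M : Set (V m ≃ₗ[Q] V m))).Countable := by
    refine Set.MapsTo.countable_of_injOn (f := lf_img S) ?_ (lf_img_inj hS).injOn h2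
    intro g hg s
    exact (hg.2 _).mpr (hSM s.2)
  exact h3.to_subtype

/-! ### the positive definite form of a point -/

/-- the positive definite form -/
noncomputable def lf_Q (q : Pt m) (x : V m) : ℝ := (herm x x).re + 2 * uval x q

theorem lf_Q_eq' {q : Pt m} (hq : q ∈ SD m) (x : V m) :
    lf_Q q x = ‖x.2.1 - x.2.2 • q.2‖ ^ 2 + ‖herm (vec q) x‖ ^ 2 / hgt q +
      ‖hgt q • x.2.2 + herm x (vec q)‖ ^ 2 / hgt q := by
  have hu : 0 < hgt q := hq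
  have h1 := rcs_id x q
  rw [norm_herm_comm x (vec q)] at h1
  unfold lf_Q uval
  have h2 : (herm x x).re = ‖x.2.1 - x.2.2 • q.2‖ ^ 2
      + ‖hgt q • x.2.2 + herm x (vec q)‖ ^ 2 / hgt q
      - ‖herm (vec q) x‖ ^ 2 / hgt q := by
    field_simp
    linarith
  rw [h2]
  ring

theorem lf_Q_eq {q : Pt m} (hq : q ∈ SD m) (x : V m) :
    lf_Q q x = ‖x.2.1 - x.2.2 • q.2‖ ^ 2 + hgt q / 2 * ‖x.2.2‖ ^ 2 +
      ‖hgt q • x.2.2 + (2 : ℝ) • herm x (vec q)‖ ^ 2 / (2 * hgt q) := by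
  have hu : 0 < hgt q := hq
  rw [lf_Q_eq' hq, norm_herm_comm (vec q) x]
  generalize herm x (vec q) = D
  generalize x.2.2 = t
  have h1 : ‖hgt q • t + (2 : ℝ) • D‖ ^ 2 =
      hgt q ^ 2 * ‖t‖ ^ 2 + 4 * hgt q * inner ℝ t D + 4 * ‖D‖ ^ 2 := by
    rw [norm_add_sq_real, norm_smul, norm_smul, real_inner_smul_left, real_inner_smul_right, mul_pow,
      mul_pow, Real.norm_eq_abs, Real.norm_eq_abs, sq_abs, sq_abs]
    ring
  have h2 : ‖hgt q • t + D‖ ^ 2 =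
      hgt q ^ 2 * ‖t‖ ^ 2 + 2 * hgt q * inner ℝ t D + ‖D‖ ^ 2 := by
    rw [norm_add_sq_real, norm_smul, real_inner_smul_left, mul_pow, Real.norm_eq_abs, sq_abs]
    ring
  rw [h1, h2]
  field_simp
  ring

theorem lf_Q_act {g : V m ≃ₗ[Q] V m} (hg : g ∈ UG m) {q : Pt m} (hq : q ∈ SD m) (x : V m) :
    lf_Q (act g q) (g x) = lf_Q q x := by
  have key : g⁻¹ (g x) = x := g.symm_apply_apply x
  unfold lf_Q
  rw [uval_act hg _ hq, key, hg]

theorem lf_bound {q : Pt m} {C a H K : ℝ} (ha : 0 < a) (hq : q ∈ Sieg m C a)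
    (hH : hgt q ≤ H) {y : V m} (hK : 0 ≤ K) (hy : lf_Q q y ≤ K) :
    ‖y.2.2‖ ≤ Real.sqrt (2 * K / a) ∧
    ‖y.2.1‖ ≤ Real.sqrt K + C * Real.sqrt (2 * K / a) ∧
    ‖y.1‖ ≤ Real.sqrt (K * H) + ((H + C ^ 2) / 2 + C) * Real.sqrt (2 * K / a) +
      C * (Real.sqrt K + C * Real.sqrt (2 * K / a)) := by
  obtain ⟨hq1, hq2, hq3⟩ := hq
  have hu : 0 < hgt q := by linarith
  have hC0 : 0 ≤ C := (norm_nonneg _).trans hq1
  have e1 := lf_Q_eq (show q ∈ SD m from hu) y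
  have e2 := lf_Q_eq' (show q ∈ SD m from hu) y
  have t1 : 0 ≤ ‖y.2.1 - y.2.2 • q.2‖ ^ 2 := sq_nonneg _
  have t2 : 0 ≤ hgt q / 2 * ‖y.2.2‖ ^ 2 := by positivity
  have t3 : 0 ≤ ‖hgt q • y.2.2 + (2 : ℝ) • herm y (vec q)‖ ^ 2 / (2 * hgt q) := by
    positivity
  have t4 : 0 ≤ ‖hgt q • y.2.2 + herm y (vec q)‖ ^ 2 / hgt q := by positivity
  have t5 : 0 ≤ ‖herm (vec q) y‖ ^ 2 / hgt q := by positivity
  have f3 : ‖y.2.2‖ ≤ Real.sqrt (2 * K / a) := by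
    apply Real.le_sqrt_of_sq_le
    rw [le_div_iff₀ ha]
    have : ‖y.2.2‖ ^ 2 * a ≤ ‖y.2.2‖ ^ 2 * hgt q := by gcongr
    linarith
  have f2' : ‖y.2.1 - y.2.2 • q.2‖ ≤ Real.sqrt K := by
    apply Real.le_sqrt_of_sq_le
    linarith
  have f2 : ‖y.2.1‖ ≤ Real.sqrt K + C * Real.sqrt (2 * K / a) := by
    have h1 : y.2.1 = (y.2.1 - y.2.2 • q.2) + y.2.2 • q.2 := by abel
    calc ‖y.2.1‖ = ‖(y.2.1 - y.2.2 • q.2) + y.2.2 • q.2‖ := by rw [← h1]
      _ ≤ ‖y.2.1 - y.2.2 • q.2‖ + ‖y.2.2 • q.2‖ := norm_add_le _ _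
      _ ≤ Real.sqrt K + C * Real.sqrt (2 * K / a) := by
        rw [norm_smul, mul_comm ‖y.2.2‖]
        gcongr
  have f4 : ‖herm (vec q) y‖ ≤ Real.sqrt (K * H) := by
    apply Real.le_sqrt_of_sq_le
    have : ‖herm (vec q) y‖ ^ 2 / hgt q ≤ K := by linarith
    rw [div_le_iff₀ hu] at this
    exact this.trans (mul_le_mul_of_nonneg_left hH hK)
  have fz : ‖q.1‖ ≤ (H + C ^ 2) / 2 + C := by
    have h1 : ‖q.1‖ ≤ |q.1.re| + ‖q.1.im‖ := by
      calc ‖q.1‖ = ‖(q.1.re : Q) + q.1.im‖ := by rw [Quaternion.re_add_im]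
        _ ≤ ‖(q.1.re : Q)‖ + ‖q.1.im‖ := norm_add_le _ _
        _ = _ := by rw [Quaternion.norm_coe, Real.norm_eq_abs]
    have h2 : |q.1.re| ≤ (H + C ^ 2) / 2 := by
      have h3 : q.1.re = -((hgt q + ‖q.2‖ ^ 2) / 2) := by
        unfold hgt
        ring
      rw [h3, abs_neg, abs_of_nonneg (by positivity)]
      have : ‖q.2‖ ^ 2 ≤ C ^ 2 := by gcongr
      linarith
    linarith
  have hZ : 0 ≤ (H + C ^ 2) / 2 + C := (norm_nonneg _).trans fz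
  refine ⟨f3, f2, ?_⟩
  have h1 : star y.1 = herm (vec q) y - q.1 * star y.2.2 - hin q.2 y.2.1 := by
    simp only [herm, vec, one_mul]
    abel
  calc ‖y.1‖ = ‖star y.1‖ := (Quaternion.norm_star _).symm
    _ = ‖herm (vec q) y - q.1 * star y.2.2 - hin q.2 y.2.1‖ := by rw [h1]
    _ ≤ ‖herm (vec q) y - q.1 * star y.2.2‖ + ‖hin q.2 y.2.1‖ := norm_sub_le _ _
    _ ≤ ‖herm (vec q) y‖ + ‖q.1 * star y.2.2‖ + ‖hin q.2 y.2.1‖ := by
      gcongr
      exact norm_sub_le _ _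
    _ ≤ ‖herm (vec q) y‖ + ‖q.1‖ * ‖y.2.2‖ + ‖q.2‖ * ‖y.2.1‖ := by
      rw [norm_mul, Quaternion.norm_star]
      gcongr
      exact norm_hin_le _ _
    _ ≤ _ := by
      gcongr

/-! ### local finiteness -/

theorem lf_bound' {C a H K : ℝ} (ha : 0 < a) (hK : 0 ≤ K) : ∃ B : ℝ,
    ∀ (q : Pt m) (y : V m), q ∈ Sieg m C a → hgt q ≤ H → lf_Q q y ≤ K → ‖y‖ ≤ B := by
  refine ⟨max (Real.sqrt (2 * K / a)) (max (Real.sqrt K + C * Real.sqrt (2 * K / a))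
      (Real.sqrt (K * H) + ((H + C ^ 2) / 2 + C) * Real.sqrt (2 * K / a) +
      C * (Real.sqrt K + C * Real.sqrt (2 * K / a)))), fun q y hq hH hy => ?_⟩
  obtain ⟨h1, h2, h3⟩ := lf_bound ha hq hH hK hy
  rw [Prod.norm_def, Prod.norm_def]
  exact max_le (h3.trans ((le_max_right _ _).trans (le_max_right _ _)))
    (max_le (h2.trans ((le_max_left _ _).trans (le_max_right _ _))) (h1.trans (le_max_left _ _)))

theorem lf_height (hORBC : ST_ORBC) {M : AddSubgroup (V m)} (hM : IsLat M) {r0 R : ℝ} (hr0 : 0 < r0)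
    (hR : 0 < R) :
    ∃ H : ℝ, ∀ γ ∈ Gam M, ∀ q : Pt m, r0 ≤ hgt q → hgt q ≤ R → hgt (act γ q) ≤ H := by
  obtain ⟨c, hc, hcM⟩ := hORBC m M hM
  have hm0 : 0 < min (1 / R) (c * r0) := lt_min (by positivity) (by positivity)
  refine ⟨1 / min (1 / R) (c * r0), fun γ hγ q hq1 hq2 => ?_⟩
  have hqU : q ∈ SD m := lt_of_lt_of_le hr0 hq1
  have hq0 : 0 < hgt q := hqU
  have hO : γ⁻¹ w0 ∈ Orb M := ⟨_, (Gam M).inv_mem hγ, rfl⟩
  have h2 : min (1 / R) (c * r0) ≤ 1 / hgt (act γ q) := by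
    rw [← uval_w0, uval_act hγ.1 w0 hqU]
    rcases hcM _ hO q hqU with h | h
    · rw [h]
      exact (min_le_left _ _).trans (one_div_le_one_div_of_le hq0 hq2)
    · refine (min_le_right _ _).trans (le_trans ?_ h)
      exact mul_le_mul_of_nonneg_left hq1 hc.le
  have h3 : 0 < hgt (act γ q) := act_mem hγ.1 hqU
  rw [le_div_iff₀ hm0]
  rw [le_div_iff₀ h3] at h2
  linarith

theorem lf_herm_le (q : Pt m) (x : V m) : ‖herm (vec q) x‖ ≤ (‖q.1‖ + ‖q.2‖ + 1) * ‖x‖ := by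
  have n1 : ‖x.1‖ ≤ ‖x‖ := norm_fst_le x
  have n2 : ‖x.2.1‖ ≤ ‖x‖ := (norm_fst_le x.2).trans (norm_snd_le x)
  have n3 : ‖x.2.2‖ ≤ ‖x‖ := (norm_snd_le x.2).trans (norm_snd_le x)
  have h1 : herm (vec q) x = q.1 * star x.2.2 + hin q.2 x.2.1 + star x.1 := by
    simp only [herm, vec, one_mul]
  rw [h1]
  calc ‖q.1 * star x.2.2 + hin q.2 x.2.1 + star x.1‖
      ≤ ‖q.1 * star x.2.2‖ + ‖hin q.2 x.2.1‖ + ‖star x.1‖ := norm_add₃_le
    _ ≤ ‖q.1‖ * ‖x‖ + ‖q.2‖ * ‖x‖ + ‖x‖ := by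
      rw [norm_mul, Quaternion.norm_star, Quaternion.norm_star]
      have := norm_hin_le q.2 x.2.1
      gcongr
      exact this.trans (mul_le_mul_of_nonneg_left n2 (norm_nonneg _))
    _ = (‖q.1‖ + ‖q.2‖ + 1) * ‖x‖ := by ring

theorem lf_re_le (a : Q) : a.re ≤ ‖a‖ := by
  have h := q_norm_sq a
  refine le_trans (le_abs_self _) (abs_le_of_sq_le_sq ?_ (norm_nonneg _))
  rw [h]
  nlinarith [sq_nonneg a.imI, sq_nonneg a.imJ, sq_nonneg a.imK]

theorem lf_self_le (x : V m) : (herm x x).re ≤ 3 * ‖x‖ ^ 2 := by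
  have n1 : ‖x.1‖ ≤ ‖x‖ := norm_fst_le x
  have n2 : ‖x.2.1‖ ≤ ‖x‖ := (norm_fst_le x.2).trans (norm_snd_le x)
  have n3 : ‖x.2.2‖ ≤ ‖x‖ := (norm_snd_le x.2).trans (norm_snd_le x)
  rw [herm_self_re]
  have h1 : (x.1 * star x.2.2).re ≤ ‖x‖ * ‖x‖ := by
    refine (lf_re_le _).trans ?_
    rw [norm_mul, Quaternion.norm_star]
    exact mul_le_mul n1 n3 (norm_nonneg _) (norm_nonneg _)
  have h2 : ‖x.2.1‖ ^ 2 ≤ ‖x‖ ^ 2 := pow_le_pow_left₀ (norm_nonneg _) n2 2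
  nlinarith

theorem st_LF (hORBC : ST_ORBC) : ST_LF := by
  intro m M hM p hp C a ha
  obtain ⟨S, hSM, hS⟩ := lf_span hM
  have hp2 : 0 < hgt p := hp
  have hUo : IsOpen {q : Pt m | ‖q.1‖ < ‖p.1‖ + 1 ∧ ‖q.2‖ < ‖p.2‖ + 1 ∧ hgt p / 2 < hgt q ∧
      hgt q < 2 * hgt p} := by
    have c1 : Continuous fun q : Pt m => ‖q.1‖ := by fun_prop
    have c2 : Continuous fun q : Pt m => ‖q.2‖ := by fun_prop
    exact (isOpen_lt c1 continuous_const).inter ((isOpen_lt c2 continuous_const).inter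
      ((isOpen_lt continuous_const continuous_hgt).inter
        (isOpen_lt continuous_hgt continuous_const)))
  have hpU : p ∈ {q : Pt m | ‖q.1‖ < ‖p.1‖ + 1 ∧ ‖q.2‖ < ‖p.2‖ + 1 ∧ hgt p / 2 < hgt q ∧
      hgt q < 2 * hgt p} :=
    ⟨by linarith, by linarith, by linarith, by linarith⟩
  refine ⟨_, hUo.mem_nhds hpU, fun q hq => ?_, ?_⟩
  · have : hgt p / 2 < hgt q := hq.2.2.1
    change 0 < hgt q
    linarith
  have hr00 : 0 < hgt p / 2 := by positivity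
  obtain ⟨H, hH⟩ := lf_height hORBC hM hr00 (show 0 < 2 * hgt p by positivity)
  set B : ℝ := ∑ s ∈ S, ‖s‖ with hB
  have hB0 : 0 ≤ B := Finset.sum_nonneg fun s _ => norm_nonneg s
  have hBs : ∀ s ∈ S, ‖s‖ ≤ B := fun s hs =>
    Finset.single_le_sum (f := fun s : V m => ‖s‖) (fun t _ => norm_nonneg t) hs
  set K : ℝ := 3 * B ^ 2 + 2 * (((‖p.1‖ + ‖p.2‖ + 3) * B) ^ 2 / (hgt p / 2)) with hKdef
  have hK0 : 0 ≤ K := by positivity
  obtain ⟨B', hB'⟩ := lf_bound' (m := m) (C := C) (H := H) ha hK0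
  have hF : {f : S → V m | ∀ s, f s ∈ {x : V m | x ∈ M ∧ ‖x‖ ≤ B'}}.Finite :=
    Set.Finite.pi' fun _ => hM.fin B'
  refine Set.Finite.of_finite_image (f := fun γ : Gam M => lf_img S (γ : V m ≃ₗ[Q] V m))
    (hF.subset ?_) ?_
  · rintro _ ⟨γ, ⟨q, hq, hqS⟩, rfl⟩ s
    obtain ⟨hqa, hqb, hqc, hqd⟩ := hq
    have hqU : q ∈ SD m := lt_trans hr00 hqc
    have hq0 : 0 < hgt q := hqU
    have hγ := γ.2
    refine ⟨(hγ.2 _).mpr (hSM s.2), ?_⟩
    refine hB' (act γ q) _ hqS (hH _ hγ q hqc.le hqd.le) ?_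
    change lf_Q (act γ q) ((γ : V m ≃ₗ[Q] V m) s) ≤ K
    rw [lf_Q_act hγ.1 hqU, lf_Q, uval]
    have h1 : (herm (s : V m) s).re ≤ 3 * B ^ 2 := by
      refine (lf_self_le (s : V m)).trans ?_
      have := pow_le_pow_left₀ (norm_nonneg _) (hBs s s.2) 2
      linarith
    have h2 : ‖herm (vec q) (s : V m)‖ ≤ (‖p.1‖ + ‖p.2‖ + 3) * B := by
      refine (lf_herm_le q (s : V m)).trans ?_
      apply mul_le_mul _ (hBs s s.2) (norm_nonneg _) (by positivity)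
      linarith
    have h3 : ‖herm (vec q) (s : V m)‖ ^ 2 / hgt q ≤
        ((‖p.1‖ + ‖p.2‖ + 3) * B) ^ 2 / (hgt p / 2) := by
      gcongr
    linarith
  · intro γ _ δ _ h
    exact Subtype.ext (lf_img_inj hS h)

end Pool.Agent.Helper19.Qh
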